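import Pool.Agent.L0h78.DE.Main

/-!
# Learning DNF formulas from uniform random examples and estimating one number

DNF formulas are learnable in polynomial time from uniform random examples if and only if their
average sensitivity (or the influence of their first variable, or the probability that `f` takes
different values at a point and its antipode, or the probability that `f x ≠ f (x + a)`, for a
given vector `a`) can be estimated in polynomial time from uniform random examples.
-/

namespace Pool.Agent.Results.MP_cba12a_lc.EstimateOneNumber

open Pool.Agent.L0h78.DE

theorem result : List.TFAE [Learnable, Estimable averageSensitivity, Estimable firstInfluence,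
    Estimable antipodal, EstimableShift] := by
  have h := main
  tfae_have 1 ↔ 2 := h.out 0 3
  tfae_have 1 ↔ 3 := h.out 0 2
  tfae_have 1 ↔ 4 := h.out 0 4
  tfae_have 1 ↔ 5 := h.out 0 1
  tfae_finish

end Pool.Agent.Results.MP_cba12a_lc.EstimateOneNumber
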