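import Pool.Agent.L0h78.NK.Fwd

/-!
# Learning DNF formulas from uniform random examples and estimating the noise sensitivity

DNF formulas are learnable in polynomial time from uniform random examples if and only if their
noise sensitivity can be estimated in polynomial time from uniform random examples; the same holds
for monotone DNF formulas.
-/

namespace Pool.Agent.Results.MP_cba12a_lc.NoiseSensitivity

open Pool.Agent.L0h78.NK

/-- For general (`m = false`) and for monotone (`m = true`) DNF formulas. -/
theorem result : ∀ m : Bool, Learnable m ↔ Estimable m noiseSensitivity := main

end Pool.Agent.Results.MP_cba12a_lc.NoiseSensitivity
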