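import Pool.Agent.H70.LD.FinalG

/-!
# Learning DNF formulas with pairwise small intersections from uniform random examples

For all fixed `c` and `a` the DNF formulas in which any two terms have at most `c` common variables
are learnable from uniform random examples with accuracy `1 / a` in time polynomial in `n` and
`1 / δ`.
-/

namespace Pool.Agent.Results.MP_cba12a_lc.SmallIntersections

open Pool.Agent.Helper91K9.DL Pool.Agent.H70.LD Pool.Agent.H424R2.PPAD

theorem result (c a : ℕ) (ha : 1 ≤ a) :
    ∃ A : List (List Bool × Bool) → List (List (ℕ × Bool)), PTime A ∧ ∃ e : ℕ,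
      ∀ (n b : ℕ) (F : List (List (ℕ × Bool))), 1 ≤ b → SmallMeets n c F →
        ∀ m, (n + b + 1) ^ e ≤ m → Succeeds A n m F (1 / a) (1 / b) :=
  smallMeets c a ha

end Pool.Agent.Results.MP_cba12a_lc.SmallIntersections
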