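import Pool.Agent.H70.LD.MainS

/-!
# Learning DNF formulas with small intersections and small weights from uniform random examples

The weight of a variable `v` in a DNF formula `F` is the sum of `2 ^ (-|T|)` over the terms `T` of
`F` that contain `v`, negated or not.  For all fixed `c` and `K ≥ 1` the DNF formulas in which any
two terms have at most `c` common variables and in which every variable has weight at most
`(n / ε) ^ (-1 / K)` are learnable from uniform random examples with accuracy `ε` in time polynomial
in `n`, `1 / ε` and `1 / δ`.
-/

namespace Pool.Agent.Results.MP_cba12a_lc.SmallWeights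

open Pool.Agent.Helper91K9.DL Pool.Agent.H70.LD Pool.Agent.H424R2.PPAD

theorem result (c K : ℕ) (hK : 1 ≤ K) :
    ∃ A : ℕ × List (List Bool × Bool) → List (List (ℕ × Bool)), PTime A ∧ ∃ e : ℕ,
      ∀ (n a b : ℕ) (F : List (List (ℕ × Bool))), 1 ≤ a → 1 ≤ b → SmallMeets n c F →
        (∀ v < n, n * a * weight F v ^ K ≤ 1) →
        ∀ m, (n + a + b) ^ e ≤ m → Succeeds (fun s => A (a, s)) n m F (1 / a) (1 / b) :=
  sparse c K hK

end Pool.Agent.Results.MP_cba12a_lc.SmallWeights
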